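import Pool.Agent.Helper14.W5.StE

/-!
# Project W5, module Int: integrality of `psi`
-/

set_option autoImplicit false

namespace Pool.Agent.Helper67.W5

open Pool.Agent.Helper14.W5
open Pool.Agent.Helper14.CV (Homog EqC act Tl ne_zero_of_det)
open Pool.Agent.Helper28.WK (SymP Tw evw Ok UIp)

/-- The group of complex numbers modulo the integers. -/
private abbrev CZ : Type := ℂ ⧸ (Int.castAddHom ℂ).range

private def mk (z : ℂ) : CZ := QuotientAddGroup.mk z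

private theorem mk_add (z w : ℂ) : mk (z + w) = mk z + mk w := rfl

private theorem mk_int (z : ℂ) (k : ℤ) : mk (z + k) = mk z := by
  have h : mk ((k : ℤ) : ℂ) = 0 := (QuotientAddGroup.eq_zero_iff _).2 ⟨k, rfl⟩
  rw [mk_add, h, add_zero]

private theorem mk_zero (z : ℂ) (h : mk z = 0) : ∃ k : ℤ, (k : ℂ) = z := by
  obtain ⟨k, hk⟩ := (QuotientAddGroup.eq_zero_iff z).1 h
  exact ⟨k, hk⟩

/-- INT: integrality. -/
theorem hInt : SPInt := by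
  intro hUI p0 hp0 m ψ G hψ hG
  have hp0' : (p0 : ℤ) ≠ 0 := by exact_mod_cast hp0.ne_zero
  have hne : ((1 : ℤ) ≠ 0 ∨ (0 : ℤ) ≠ 0) := Or.inl one_ne_zero
  -- the reduction modulo the integers
  let χ : ℤ → ℤ → CZ := fun p q => mk (ψ p q - ψ 1 0)
  have hχ : SymP p0 0 m χ := by
    refine ⟨?_, ?_⟩
    · intro k p q hk hpq
      change mk (ψ (k * p) (k * q) - ψ 1 0) = mk (ψ p q - ψ 1 0)
      rw [hψ.1 k p q hk hpq]
    · intro a b c d hdet hb hc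
      obtain ⟨k, hk⟩ := hψ.2 a b c d hdet hb hc
      refine ⟨mk k, fun p q hpq => ?_⟩
      change mk (act a b c d ψ p q - ψ 1 0) = mk (ψ p q - ψ 1 0) + mk k
      rw [hk p q hpq, ← mk_add]
      congr 1
      ring
  have hu : EqC (act p0 0 0 1 χ) χ := by
    obtain ⟨k, hk⟩ := hG
    refine ⟨mk k, fun p q hpq => ?_⟩
    change mk (act p0 0 0 1 ψ p q - ψ 1 0) = mk (ψ p q - ψ 1 0) + mk k
    have h1 : act p0 0 0 1 ψ p q - ψ p q = (G p q : ℂ) + k := hk p q hpq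
    have h2 : act p0 0 0 1 ψ p q - ψ 1 0 = (ψ p q - ψ 1 0 + k) + (G p q : ℂ) := by
      linear_combination h1
    rw [h2, mk_int, mk_add]
  obtain ⟨c, hc⟩ := hUI p0 hp0.two_le CZ inferInstance 0 m χ hχ hu
  have hc0 : c = 0 := by
    have h1 : χ 1 0 = (0 : ℤ → ℤ → CZ) 1 0 + c := hc 1 0 hne
    have h2 : χ 1 0 = 0 := by
      change mk (ψ 1 0 - ψ 1 0) = 0
      rw [sub_self]
      rfl
    rw [h2] at h1
    change 0 = 0 + c at h1
    rw [zero_add] at h1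
    exact h1.symm
  have hint : ∀ p q : ℤ, (p ≠ 0 ∨ q ≠ 0) → ∃ k : ℤ, (k : ℂ) = ψ p q - ψ 1 0 := by
    intro p q hpq
    have h1 : χ p q = (0 : ℤ → ℤ → CZ) p q + c := hc p q hpq
    rw [hc0, add_zero] at h1
    exact mk_zero _ h1
  have hex : ∀ p q : ℤ, ∃ k : ℤ, (p ≠ 0 ∨ q ≠ 0) → (k : ℂ) = ψ p q - ψ 1 0 := by
    intro p q
    by_cases hpq : p ≠ 0 ∨ q ≠ 0
    · obtain ⟨k, hk⟩ := hint p q hpq
      exact ⟨k, fun _ => hk⟩
    · exact ⟨0, fun h => absurd h hpq⟩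
  choose ψ' hψ' using hex
  refine ⟨ψ', ⟨?_, ?_⟩, ?_⟩
  · intro k p q hk hpq
    have hkpq : k * p ≠ 0 ∨ k * q ≠ 0 := by
      rcases hpq with h | h
      · exact Or.inl (mul_ne_zero hk h)
      · exact Or.inr (mul_ne_zero hk h)
    have h1 := hψ' (k * p) (k * q) hkpq
    rw [hψ.1 k p q hk hpq, ← hψ' p q hpq] at h1
    exact_mod_cast h1
  · intro a b c' d hdet hb hc'
    obtain ⟨k, hk⟩ := hψ.2 a b c' d hdet hb hc'
    have hdet' : a * d - b * c' ≠ 0 := by rw [hdet]; exact one_ne_zero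
    have key : ∀ p q : ℤ, (p ≠ 0 ∨ q ≠ 0) →
        ((ψ' (a * p + b * q) (c' * p + d * q) : ℤ) : ℂ) = (ψ' p q : ℤ) + k := by
      intro p q hpq
      have h1 := hψ' _ _ (ne_zero_of_det hdet' hpq)
      have h2 : ψ (a * p + b * q) (c' * p + d * q) = ψ p q + k := hk p q hpq
      rw [h1, hψ' p q hpq, h2]
      ring
    have hk0 := key 1 0 hne
    refine ⟨ψ' (a * 1 + b * 0) (c' * 1 + d * 0) - ψ' 1 0, fun p q hpq => ?_⟩
    have h3 := key p q hpq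
    have h4 : ((ψ' (a * p + b * q) (c' * p + d * q) : ℤ) : ℂ) =
        ((ψ' p q + (ψ' (a * 1 + b * 0) (c' * 1 + d * 0) - ψ' 1 0) : ℤ) : ℂ) := by
      push_cast
      linear_combination h3 - hk0
    exact_mod_cast h4
  · obtain ⟨k, hk⟩ := hG
    have hdet' : (p0 : ℤ) * 1 - 0 * 0 ≠ 0 := by
      rw [mul_one, mul_zero, sub_zero]
      exact hp0'
    have key : ∀ p q : ℤ, (p ≠ 0 ∨ q ≠ 0) →
        ((ψ' ((p0 : ℤ) * p + 0 * q) (0 * p + 1 * q) : ℤ) : ℂ) - (ψ' p q : ℤ) = (G p q : ℤ) + k := by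
      intro p q hpq
      have h1 := hψ' _ _ (ne_zero_of_det hdet' hpq)
      have h2 : ψ ((p0 : ℤ) * p + 0 * q) (0 * p + 1 * q) - ψ p q = (G p q : ℂ) + k := hk p q hpq
      rw [h1, hψ' p q hpq]
      linear_combination h2
    have hk0 : ((ψ' ((p0 : ℤ) * 1 + 0 * 0) (0 * 1 + 1 * 0) : ℤ) : ℂ) - (ψ' 1 0 : ℤ) =
        (G 1 0 : ℤ) + k := key 1 0 hne
    obtain ⟨A, hA⟩ : ∃ A : ℤ, ψ' ((p0 : ℤ) * 1 + 0 * 0) (0 * 1 + 1 * 0) = A := ⟨_, rfl⟩
    rw [hA] at hk0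
    refine ⟨A - ψ' 1 0 - G 1 0, fun p q hpq => ?_⟩
    have h3 := key p q hpq
    have h4 : ((ψ' ((p0 : ℤ) * p + 0 * q) (0 * p + 1 * q) - ψ' p q : ℤ) : ℂ) =
        ((G p q + (A - ψ' 1 0 - G 1 0) : ℤ) : ℂ) := by
      push_cast
      linear_combination h3 - hk0
    exact_mod_cast h4

end Pool.Agent.Helper67.W5
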